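import Pool.Agent.Y193.HQ.Psi

/-!
The image of `Psi` is closed, and local holomorphic inverses.
-/

open Complex

noncomputable section

namespace Pool.Agent.Y193.HQ

/-- A local inverse of `ee` near `ee t₀`. -/
def lg (t₀ q : ℂ) : ℂ := t₀ + Complex.log (q * ee (-t₀)) / (2 * Real.pi * I)

theorem ee_lg (t₀ : ℂ) {q : ℂ} (hq : q ≠ 0) : ee (lg t₀ q) = q := by
  unfold lg
  rw [ee_add]
  have h1 : ee (Complex.log (q * ee (-t₀)) / (2 * Real.pi * I)) = q * ee (-t₀) := by
    change cexp (2 * Real.pi * I * (Complex.log (q * ee (-t₀)) / (2 * Real.pi * I))) = _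
    rw [mul_div_cancel₀ _ two_pi_I_ne, Complex.exp_log (mul_ne_zero hq (ee_ne _))]
  rw [h1]
  have := ee_neg_mul t₀
  linear_combination q * this

theorem lg_ee_self (t₀ : ℂ) : lg t₀ (ee t₀) = t₀ := by
  unfold lg
  rw [ee_mul_neg]
  simp

theorem im_div (w : ℂ) : (w / (2 * Real.pi * I)).re = w.im / (2 * Real.pi) := by
  have hp : (2 * Real.pi : ℂ) ≠ 0 := by
    have := Real.pi_ne_zero
    simp [this]
  have hp2 : (2 * Real.pi : ℝ) ≠ 0 := by
    have := Real.pi_ne_zero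
    simp [this]
  have h : w / (2 * Real.pi * I) = ((2 * Real.pi : ℝ) : ℂ)⁻¹ * (-I * w) := by
    rw [div_eq_iff two_pi_I_ne]
    push_cast
    field_simp
    have : I * I = -1 := I_mul_I
    linear_combination w * this
  rw [h, ← Complex.ofReal_inv, Complex.re_ofReal_mul]
  simp
  field_simp

theorem lg_near (t₀ : ℂ) {q : ℂ} (hq : q * ee (-t₀) ∈ slitPlane) :
    |(lg t₀ q - t₀).re| < 1 / 2 := by
  unfold lg
  rw [add_sub_cancel_left, im_div, Complex.log_im, abs_div]
  have hp := Real.pi_pos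
  rw [abs_of_pos (by positivity : (0 : ℝ) < 2 * Real.pi), div_lt_iff₀ (by positivity)]
  have h1 := Complex.neg_pi_lt_arg (q * ee (-t₀))
  have h2 : (q * ee (-t₀)).arg ≠ Real.pi := (Complex.mem_slitPlane_iff_arg.1 hq).1
  have h3 : (q * ee (-t₀)).arg < Real.pi := lt_of_le_of_ne (Complex.arg_le_pi _) h2
  rw [abs_lt]
  constructor <;> linarith

theorem ee_near {t₀ t : ℂ} (ht : |(t - t₀).re| < 1 / 2) :
    ee t * ee (-t₀) ∈ slitPlane ∧ lg t₀ (ee t) = t := by
  have hp := Real.pi_pos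
  rw [abs_lt] at ht
  have him : (2 * Real.pi * I * (t - t₀)).im = 2 * Real.pi * (t - t₀).re := by
    have : (2 * Real.pi * I * (t - t₀) : ℂ) = ((2 * Real.pi : ℝ) : ℂ) * (I * (t - t₀)) := by
      push_cast; ring
    rw [this, Complex.im_ofReal_mul]
    simp
  have h1 : -Real.pi < (2 * Real.pi * I * (t - t₀)).im := by rw [him]; nlinarith [ht.1]
  have h2 : (2 * Real.pi * I * (t - t₀)).im < Real.pi := by rw [him]; nlinarith [ht.2]
  have hlog : Complex.log (ee (t - t₀)) = 2 * Real.pi * I * (t - t₀) :=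
    Complex.log_exp h1 h2.le
  have he : ee t * ee (-t₀) = ee (t - t₀) := by rw [← ee_add]; rfl
  refine ⟨?_, ?_⟩
  · rw [he, Complex.mem_slitPlane_iff_arg]
    refine ⟨?_, ee_ne _⟩
    rw [← Complex.log_im, hlog]
    exact h2.ne
  · unfold lg
    rw [he, hlog, mul_div_cancel_left₀ _ two_pi_I_ne]
    ring

theorem lg_differentiableOn {F : Type*} [NormedAddCommGroup F] [NormedSpace ℂ F]
    {S : Set F} (t₀ : ℂ) {f : F → ℂ} (hf : DifferentiableOn ℂ f S)
    (h : ∀ p ∈ S, f p * ee (-t₀) ∈ slitPlane) :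
    DifferentiableOn ℂ (fun p => lg t₀ (f p)) S := by
  unfold lg
  have h1 : DifferentiableOn ℂ (fun p => f p * ee (-t₀)) S := hf.mul_const _
  have h2 : DifferentiableOn ℂ (fun p => Complex.log (f p * ee (-t₀))) S := by
    intro p hp
    exact (h1 p hp).clog (h p hp)
  have h3 : DifferentiableOn ℂ (fun p => Complex.log (f p * ee (-t₀)) / (2 * Real.pi * I)) S := by
    simp only [div_eq_mul_inv]
    exact h2.mul_const _
  exact h3.const_add _

theorem lg_continuousAt {F : Type*} [TopologicalSpace F]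
    (t₀ : ℂ) {f : F → ℂ} {p : F} (hf : ContinuousAt f p)
    (h : f p * ee (-t₀) ∈ slitPlane) :
    ContinuousAt (fun p => lg t₀ (f p)) p := by
  unfold lg
  have h1 : ContinuousAt (fun p => f p * ee (-t₀)) p := hf.mul_const _
  have h2 : ContinuousAt (fun p => Complex.log (f p * ee (-t₀))) p := h1.clog h
  exact (h2.div_const _).const_add _

theorem exists_ee {q : ℂ} (hq : q ≠ 0) : ∃ t, ee t = q := ⟨_, ee_lg 0 hq⟩

/-- Every point of the image can be written with prescribed first two coordinates. -/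
theorem exists_rep (w : Fin 3 → ℂ) (x y : ℂ) (hx : ee x = ee (w 0)) (hy : ee y = ee (w 1)) :
    ∃ z, Psi w = Psi ![x, y, z] := by
  obtain ⟨g, h0, h1⟩ := exists_adjust ![x, y, 0] w hx hy
  refine ⟨(g • w) 2, ?_⟩
  rw [← Psi_smul g w]
  congr 1
  funext i
  fin_cases i
  · exact h0
  · exact h1
  · rfl

theorem rel_lim (P : Fin 8 → ℂ) (hP : P ∈ closure (Set.range Psi)) (R : (Fin 8 → ℂ) → ℂ)
    (hR : ContinuousAt R P) (h0 : ∀ Q ∈ Set.range Psi, R Q = 0) : R P = 0 := by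
  have hne : (nhdsWithin P (Set.range Psi)).NeBot := mem_closure_iff_nhdsWithin_neBot.1 hP
  have h1 : Filter.Tendsto R (nhdsWithin P (Set.range Psi)) (nhds (R P)) :=
    hR.tendsto.mono_left nhdsWithin_le_nhds
  have h2 : Filter.Tendsto R (nhdsWithin P (Set.range Psi)) (nhds 0) := by
    refine Filter.Tendsto.congr' ?_ tendsto_const_nhds
    filter_upwards [self_mem_nhdsWithin] with Q hQ
    exact (h0 Q hQ).symm
  exact tendsto_nhds_unique h1 h2

theorem isClosed_range : IsClosed (Set.range Psi) := by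
  apply isClosed_of_closure_subset
  intro P hP
  have c : ∀ i : Fin 8, ContinuousAt (fun Q : Fin 8 → ℂ => Q i) P := fun i =>
    (continuous_apply i).continuousAt
  have h01 : P 0 * P 1 = 1 := by
    have := rel_lim P hP (fun Q => Q 0 * Q 1 - 1) (((c 0).mul (c 1)).sub continuousAt_const)
      (by
        rintro _ ⟨w, rfl⟩
        simp only [Psi_0, Psi_1, ee_mul_neg, sub_self])
    exact sub_eq_zero.1 this
  have h23 : P 2 * P 3 = 1 := by
    have := rel_lim P hP (fun Q => Q 2 * Q 3 - 1) (((c 2).mul (c 3)).sub continuousAt_const)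
      (by
        rintro _ ⟨w, rfl⟩
        simp only [Psi_2, Psi_3, ee_mul_neg, sub_self])
    exact sub_eq_zero.1 this
  obtain ⟨x, hx⟩ := exists_ee (left_ne_zero_of_mul (by rw [h01]; exact one_ne_zero))
  obtain ⟨y, hy⟩ := exists_ee (left_ne_zero_of_mul (by rw [h23]; exact one_ne_zero))
  have hone : (1 : ℂ) ∈ slitPlane := one_mem_slitPlane
  have cx : ContinuousAt (fun Q : Fin 8 → ℂ => lg x (Q 0)) P :=
    lg_continuousAt x (c 0) (by rw [← hx, ee_mul_neg]; exact hone)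
  have cy : ContinuousAt (fun Q : Fin 8 → ℂ => lg y (Q 2)) P :=
    lg_continuousAt y (c 2) (by rw [← hy, ee_mul_neg]; exact hone)
  have cE : ∀ j, ContinuousAt (fun Q : Fin 8 → ℂ => EE j (lg x (Q 0)) (lg y (Q 2))) P :=
    fun j => EE_continuousAt j cx cy
  have cE' : ∀ j, ContinuousAt (fun Q : Fin 8 → ℂ => EE j (lg x (Q 0)) (-lg y (Q 2))) P :=
    fun j => EE_continuousAt j cx cy.neg
  have hxP : lg x (P 0) = x := by rw [← hx, lg_ee_self]
  have hyP : lg y (P 2) = y := by rw [← hy, lg_ee_self]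
  -- the points of the image
  have hrep : ∀ Q ∈ Set.range Psi, ∃ z, Q = Psi ![lg x (Q 0), lg y (Q 2), z] := by
    rintro _ ⟨w, rfl⟩
    refine exists_rep w _ _ ?_ ?_
    · rw [ee_lg x (by rw [Psi_0]; exact ee_ne _), Psi_0]
    · rw [ee_lg y (by rw [Psi_2]; exact ee_ne _), Psi_2]
  have hF : ∀ Q ∈ Set.range Psi, ∃ z, (∀ j, Q (iF j) = EE j (lg x (Q 0)) (lg y (Q 2)) * ee z) ∧
      ∀ j, Q (iG j) = EE j (lg x (Q 0)) (-lg y (Q 2)) * ee (-z) := by
    intro Q hQ
    obtain ⟨z, hz⟩ := hrep Q hQ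
    refine ⟨z, fun j => ?_, fun j => ?_⟩
    · have := congrFun hz (iF j)
      rw [Psi_F] at this
      exact this
    · have := congrFun hz (iG j)
      rw [Psi_G] at this
      exact this
  have rFF : ∀ i j, P (iF i) * EE j x y = P (iF j) * EE i x y := by
    intro i j
    have := rel_lim P hP (fun Q => Q (iF i) * EE j (lg x (Q 0)) (lg y (Q 2))
      - Q (iF j) * EE i (lg x (Q 0)) (lg y (Q 2)))
      (((c _).mul (cE j)).sub ((c _).mul (cE i)))
      (by
        intro Q hQ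
        obtain ⟨z, h1, h2⟩ := hF Q hQ
        rw [h1 i, h1 j]
        ring)
    simp only [hxP, hyP] at this
    exact sub_eq_zero.1 this
  have rFG : ∀ i j, P (iF i) * P (iG j) = EE i x y * EE j x (-y) := by
    intro i j
    have := rel_lim P hP (fun Q => Q (iF i) * Q (iG j)
      - EE i (lg x (Q 0)) (lg y (Q 2)) * EE j (lg x (Q 0)) (-lg y (Q 2)))
      (((c _).mul (c _)).sub ((cE i).mul (cE' j)))
      (by
        intro Q hQ
        obtain ⟨z, h1, h2⟩ := hF Q hQ
        rw [h1 i, h2 j]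
        have := ee_mul_neg z
        linear_combination EE i (lg x (Q 0)) (lg y (Q 2)) * EE j (lg x (Q 0)) (-lg y (Q 2)) * this)
    simp only [hxP, hyP] at this
    exact sub_eq_zero.1 this
  obtain ⟨i, hi⟩ := EE_ne x y
  obtain ⟨k, hk⟩ := EE_ne x (-y)
  have hPi : P (iF i) ≠ 0 := by
    intro h
    have := rFG i k
    rw [h, zero_mul] at this
    exact mul_ne_zero hi hk this.symm
  obtain ⟨z, hz⟩ := exists_ee (div_ne_zero hPi hi)
  refine ⟨![x, y, z], ?_⟩
  have hFi : EE i x y * ee z = P (iF i) := by rw [hz]; field_simp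
  apply ext8
  · exact hx
  · change ee (-x) = P 1
    have h1 := ee_mul_neg x
    rw [hx] at h1
    have h2 : P 0 ≠ 0 := left_ne_zero_of_mul (by rw [h01]; exact one_ne_zero)
    exact mul_left_cancel₀ h2 (h1.trans h01.symm)
  · exact hy
  · change ee (-y) = P 3
    have h1 := ee_mul_neg y
    rw [hy] at h1
    have h2 : P 2 ≠ 0 := left_ne_zero_of_mul (by rw [h23]; exact one_ne_zero)
    exact mul_left_cancel₀ h2 (h1.trans h23.symm)
  · intro j
    rw [Psi_F]
    change EE j x y * ee z = P (iF j)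
    have h1 := rFF i j
    rw [← hFi] at h1
    apply mul_right_cancel₀ hi
    linear_combination h1
  · intro j
    rw [Psi_G]
    change EE j x (-y) * ee (-z) = P (iG j)
    have h1 := rFG i j
    rw [← hFi] at h1
    have h2 := ee_mul_neg z
    apply mul_left_cancel₀ (mul_ne_zero hi (ee_ne z))
    linear_combination (EE i x y * EE j x (-y)) * h2 - h1

/-- Local holomorphic inverses of `Psi`. -/
theorem chart (v₀ : Fin 3 → ℂ) :
    ∃ (O : Set (Fin 8 → ℂ)) (V : Set (Fin 3 → ℂ)) (ψ : (Fin 8 → ℂ) → Fin 3 → ℂ),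
      IsOpen O ∧ IsOpen V ∧ v₀ ∈ V ∧ DifferentiableOn ℂ ψ O ∧
      Psi '' V = Set.range Psi ∩ O ∧ ∀ w ∈ V, ψ (Psi w) = w := by
  obtain ⟨j, hj⟩ := EE_ne (v₀ 0) (v₀ 1)
  set O1 : Set (Fin 8 → ℂ) := {P | P 0 * ee (-v₀ 0) ∈ slitPlane ∧ P 2 * ee (-v₀ 1) ∈ slitPlane}
    with hO1
  set e : (Fin 8 → ℂ) → ℂ := fun P => EE j (lg (v₀ 0) (P 0)) (lg (v₀ 1) (P 2)) with he
  set O2 : Set (Fin 8 → ℂ) := O1 ∩ e ⁻¹' {0}ᶜ with hO2
  set r : (Fin 8 → ℂ) → ℂ := fun P => P (iF j) / e P with hr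
  set O3 : Set (Fin 8 → ℂ) := O2 ∩ (fun P => r P * ee (-v₀ 2)) ⁻¹' slitPlane with hO3
  have hO1o : IsOpen O1 := by
    apply IsOpen.inter
    · exact isOpen_slitPlane.preimage (by fun_prop)
    · exact isOpen_slitPlane.preimage (by fun_prop)
  have hp : ∀ (S : Set (Fin 8 → ℂ)) (i : Fin 8), DifferentiableOn ℂ (fun P : Fin 8 → ℂ => P i) S :=
    fun S i => by fun_prop
  have dx : DifferentiableOn ℂ (fun P : Fin 8 → ℂ => lg (v₀ 0) (P 0)) O1 :=
    lg_differentiableOn _ (hp _ 0) (fun p hp => hp.1)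
  have dy : DifferentiableOn ℂ (fun P : Fin 8 → ℂ => lg (v₀ 1) (P 2)) O1 :=
    lg_differentiableOn _ (hp _ 2) (fun p hp => hp.2)
  have de : DifferentiableOn ℂ e O1 := EE_differentiable j dx dy
  have hO2o : IsOpen O2 :=
    de.continuousOn.isOpen_inter_preimage hO1o isClosed_singleton.isOpen_compl
  have dr : DifferentiableOn ℂ r O2 := by
    simp only [hr, div_eq_mul_inv]
    exact (hp O2 (iF j)).mul ((de.mono Set.inter_subset_left).inv (fun p hp => hp.2))
  have hO3o : IsOpen O3 :=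
    (dr.continuousOn.mul continuousOn_const).isOpen_inter_preimage hO2o isOpen_slitPlane
  have dz : DifferentiableOn ℂ (fun P => lg (v₀ 2) (r P)) O3 :=
    lg_differentiableOn _ (dr.mono Set.inter_subset_left) (fun p hp => hp.2)
  set V : Set (Fin 3 → ℂ) := {w | |(w 0 - v₀ 0).re| < 1 / 2 ∧ |(w 1 - v₀ 1).re| < 1 / 2 ∧
    |(w 2 - v₀ 2).re| < 1 / 2 ∧ EE j (w 0) (w 1) ≠ 0} with hV
  have hEc : Continuous (fun w : Fin 3 → ℂ => EE j (w 0) (w 1)) := by
    rw [continuous_iff_continuousAt]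
    intro w
    exact EE_continuousAt j (continuous_apply 0).continuousAt (continuous_apply 1).continuousAt
  have hVo : IsOpen V := by
    have ho : ∀ i : Fin 3, IsOpen {w : Fin 3 → ℂ | |(w i - v₀ i).re| < 1 / 2} := fun i =>
      isOpen_lt (by fun_prop) continuous_const
    exact (ho 0).inter ((ho 1).inter ((ho 2).inter (isClosed_singleton.isOpen_compl.preimage hEc)))
  -- points of `V` go to `O3`
  have hVin : ∀ w ∈ V, Psi w ∈ O3 ∧ lg (v₀ 0) (Psi w 0) = w 0 ∧ lg (v₀ 1) (Psi w 2) = w 1 ∧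
      lg (v₀ 2) (r (Psi w)) = w 2 := by
    rintro w ⟨h0, h1, h2, h3⟩
    obtain ⟨a0, b0⟩ := ee_near h0
    obtain ⟨a1, b1⟩ := ee_near h1
    obtain ⟨a2, b2⟩ := ee_near h2
    rw [← Psi_0] at a0 b0
    rw [← Psi_2] at a1 b1
    have he' : e (Psi w) = EE j (w 0) (w 1) := by
      simp only [he]
      rw [b0, b1]
    have hr' : r (Psi w) = ee (w 2) := by
      simp only [hr]
      rw [he', Psi_F, mul_div_cancel_left₀ _ h3]
    refine ⟨⟨⟨⟨a0, a1⟩, ?_⟩, ?_⟩, b0, b1, ?_⟩
    · change e (Psi w) ≠ 0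
      rw [he']
      exact h3
    · change r (Psi w) * ee (-v₀ 2) ∈ slitPlane
      rw [hr']
      exact a2
    · rw [hr']
      exact b2
  refine ⟨O3, V, fun P => ![lg (v₀ 0) (P 0), lg (v₀ 1) (P 2), lg (v₀ 2) (r P)], hO3o, hVo,
    ⟨by simp, by simp, by simp, hj⟩, ?_, ?_, ?_⟩
  · rw [differentiableOn_pi]
    intro i
    have s1 : O3 ⊆ O1 := fun P hP => hP.1.1
    fin_cases i
    · exact dx.mono s1
    · exact dy.mono s1
    · exact dz
  · ext P
    constructor
    · rintro ⟨w, hw, rfl⟩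
      exact ⟨⟨w, rfl⟩, (hVin w hw).1⟩
    · rintro ⟨⟨w', rfl⟩, hP⟩
      have hP1 := hP.1.1
      have hP2 : e (Psi w') ≠ 0 := hP.1.2
      have hP3 : r (Psi w') * ee (-v₀ 2) ∈ slitPlane := hP.2
      have n0 : Psi w' 0 ≠ 0 := by rw [Psi_0]; exact ee_ne _
      have n2 : Psi w' 2 ≠ 0 := by rw [Psi_2]; exact ee_ne _
      have n3 : r (Psi w') ≠ 0 := by
        have := slitPlane_ne_zero hP3
        exact left_ne_zero_of_mul this
      set w : Fin 3 → ℂ := ![lg (v₀ 0) (Psi w' 0), lg (v₀ 1) (Psi w' 2), lg (v₀ 2) (r (Psi w'))]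
        with hw
      have hw0 : w 0 = lg (v₀ 0) (Psi w' 0) := rfl
      have hw1 : w 1 = lg (v₀ 1) (Psi w' 2) := rfl
      have hw2 : w 2 = lg (v₀ 2) (r (Psi w')) := rfl
      have hEw : EE j (w 0) (w 1) = e (Psi w') := rfl
      refine ⟨w, ⟨lg_near _ hP1.1, lg_near _ hP1.2, lg_near _ hP3, by rw [hEw]; exact hP2⟩, ?_⟩
      rw [Psi_eq_iff]
      obtain ⟨g, hg⟩ := exists_smul w w' (by rw [hw0, ee_lg _ n0, Psi_0])
        (by rw [hw1, ee_lg _ n2, Psi_2]) j (by rw [hEw]; exact hP2)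
        (by
          rw [Psi_F, hEw, hw2, ee_lg _ n3]
          simp only [hr]
          field_simp)
      exact ⟨g, hg⟩
  · intro w hw
    obtain ⟨-, b0, b1, b2⟩ := hVin w hw
    funext i
    fin_cases i
    · exact b0
    · exact b1
    · exact b2

end Pool.Agent.Y193.HQ
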