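import Pool.Agent.Y193.HQ.Closed

/-!
`Psi` is a covering of its image with deck group the integer Heisenberg group, and the
fundamental group of the image.
-/

open Complex

noncomputable section

namespace Pool.Agent.Y193.HQ

/-- `Psi` as a map onto its image. -/
def PsiR (v : Fin 3 → ℂ) : Set.range Psi := ⟨Psi v, v, rfl⟩

theorem PsiR_continuous : Continuous PsiR :=
  Psi_differentiable.continuous.subtype_mk _

theorem PsiR_surjective : Function.Surjective PsiR := by
  rintro ⟨_, w, rfl⟩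
  exact ⟨w, rfl⟩

theorem PsiR_isOpenMap : IsOpenMap PsiR := by
  rw [isOpenMap_iff_nhds_le]
  intro v s hs
  rw [Filter.mem_map] at hs
  obtain ⟨O, V, ψ, hO, hV, hv, hd, him, hinv⟩ := chart v
  have hPO : Psi v ∈ O := by
    have : Psi v ∈ Psi '' V := ⟨v, hv, rfl⟩
    rw [him] at this
    exact this.2
  have hc : ContinuousAt ψ (Psi v) := (hd.continuousOn).continuousAt (hO.mem_nhds hPO)
  have h1 : V ∩ PsiR ⁻¹' s ∈ nhds (ψ (Psi v)) := by
    rw [hinv v hv]
    exact Filter.inter_mem (hV.mem_nhds hv) hs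
  have h2 := Filter.inter_mem (hO.mem_nhds hPO) (hc h1)
  have h3 := (continuous_subtype_val (p := fun x => x ∈ Set.range Psi)).continuousAt
    (x := PsiR v) h2
  refine Filter.mem_of_superset h3 ?_
  rintro ⟨P, hP⟩ ⟨hP1, hP2⟩
  change P ∈ O at hP1
  have hP3 : P ∈ Psi '' V := by rw [him]; exact ⟨hP, hP1⟩
  obtain ⟨w, hw, rfl⟩ := hP3
  change ψ (Psi w) ∈ V ∩ PsiR ⁻¹' s at hP2
  rw [hinv w hw] at hP2
  exact hP2.2

theorem smul_continuous (g : Heis) : Continuous (fun v : Fin 3 → ℂ => g • v) := by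
  refine continuous_pi fun i => ?_
  fin_cases i
  · change Continuous (fun v : Fin 3 → ℂ => v 0 + g.a)
    fun_prop
  · change Continuous (fun v : Fin 3 → ℂ => v 1 + g.b)
    fun_prop
  · change Continuous (fun v : Fin 3 → ℂ => v 2 + g.c + g.a * v 1)
    fun_prop

theorem int_zero_of_near {n : ℤ} {t t₀ : ℂ} (h1 : ‖t - t₀‖ < 1 / 4) (h2 : ‖t + n - t₀‖ < 1 / 4) :
    n = 0 := by
  have h3 : ‖(n : ℂ)‖ < 1 := by
    have : (n : ℂ) = (t + n - t₀) - (t - t₀) := by ring
    rw [this]
    have := norm_sub_le (t + n - t₀) (t - t₀)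
    linarith
  rw [Complex.norm_intCast] at h3
  have h4 : |n| < 1 := by exact_mod_cast h3
  have := Int.abs_lt_one_iff.1 h4
  exact this

theorem quot : IsQuotientCoveringMap PsiR Heis where
  __ := PsiR_isOpenMap.isQuotientMap PsiR_continuous PsiR_surjective
  continuous_const_smul := smul_continuous
  apply_eq_iff_mem_orbit {v w} := by
    rw [← Psi_eq_iff]
    exact Subtype.ext_iff
  disjoint v := by
    refine ⟨Metric.ball v (1 / 4), Metric.ball_mem_nhds _ (by norm_num), ?_⟩
    rintro g ⟨_, ⟨w, hw, rfl⟩, hgw⟩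
    have hi : ∀ i, ‖w i - v i‖ < 1 / 4 := fun i => by
      have := (norm_le_pi_norm (w - v) i).trans_lt (by simpa [dist_eq_norm] using hw)
      simpa using this
    have hg : ∀ i, ‖(g • w) i - v i‖ < 1 / 4 := fun i => by
      have := (norm_le_pi_norm ((g • w) - v) i).trans_lt (by simpa [dist_eq_norm] using hgw)
      simpa using this
    have ha : g.a = 0 := int_zero_of_near (hi 0) (by simpa [smul_0] using hg 0)
    have hb : g.b = 0 := int_zero_of_near (hi 1) (by simpa [smul_1] using hg 1)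
    have hc : g.c = 0 := int_zero_of_near (hi 2) (by
      have := hg 2
      rw [smul_2, ha] at this
      simpa using this)
    exact Heis.ext ha hb hc

theorem exists_equiv (x : Set.range Psi) : Nonempty (FundamentalGroup (Set.range Psi) x ≃* Heis) := by
  obtain ⟨v, hv⟩ := PsiR_surjective x
  have e : PsiR ⁻¹' {x} := ⟨v, hv⟩
  exact ⟨(quot.fundamentalGroupEquiv e).trans (MulEquiv.inv' Heis).symm⟩

/-- Any two points of the image are joined by one entire curve. -/
theorem entire (x y : Fin 8 → ℂ) (hx : x ∈ Set.range Psi) (hy : y ∈ Set.range Psi) :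
    ∃ f : ℂ → Fin 8 → ℂ, Differentiable ℂ f ∧ (∀ t, f t ∈ Set.range Psi) ∧ f 0 = x ∧ f 1 = y := by
  obtain ⟨v, rfl⟩ := hx
  obtain ⟨w, rfl⟩ := hy
  refine ⟨fun t => Psi (v + t • (w - v)), ?_, fun t => ⟨_, rfl⟩, by simp, by simp⟩
  exact Psi_differentiable.comp (by fun_prop)

end Pool.Agent.Y193.HQ
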