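import Mathlib

/-!
The integer Heisenberg group, its action on `ℂ³`, and the fact that it has no commutative
subgroup of finite index.
-/

noncomputable section

namespace Pool.Agent.Y193.HQ

/-- The integer Heisenberg group: triples of integers with
`(a', b', c') (a, b, c) = (a' + a, b' + b, c' + c + a' b)`. -/
@[ext]
structure Heis where
  a : ℤ
  b : ℤ
  c : ℤ

namespace Heis

instance : Mul Heis := ⟨fun g h => ⟨g.a + h.a, g.b + h.b, g.c + h.c + g.a * h.b⟩⟩
instance : One Heis := ⟨⟨0, 0, 0⟩⟩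
instance : Inv Heis := ⟨fun g => ⟨-g.a, -g.b, -g.c + g.a * g.b⟩⟩

@[simp] theorem mul_a (g h : Heis) : (g * h).a = g.a + h.a := rfl
@[simp] theorem mul_b (g h : Heis) : (g * h).b = g.b + h.b := rfl
@[simp] theorem mul_c (g h : Heis) : (g * h).c = g.c + h.c + g.a * h.b := rfl
@[simp] theorem one_a : (1 : Heis).a = 0 := rfl
@[simp] theorem one_b : (1 : Heis).b = 0 := rfl
@[simp] theorem one_c : (1 : Heis).c = 0 := rfl
@[simp] theorem inv_a (g : Heis) : (g⁻¹).a = -g.a := rfl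
@[simp] theorem inv_b (g : Heis) : (g⁻¹).b = -g.b := rfl
@[simp] theorem inv_c (g : Heis) : (g⁻¹).c = -g.c + g.a * g.b := rfl

instance : Group Heis where
  mul_assoc g h k := by ext <;> simp <;> ring
  one_mul g := by ext <;> simp
  mul_one g := by ext <;> simp
  inv_mul_cancel g := by ext <;> simp <;> ring

theorem pow_A (m : ℕ) : (⟨1, 0, 0⟩ : Heis) ^ m = ⟨m, 0, 0⟩ := by
  induction m with
  | zero => rfl
  | succ n ih =>
    rw [pow_succ, ih]
    ext <;> simp

theorem pow_B (m : ℕ) : (⟨0, 1, 0⟩ : Heis) ^ m = ⟨0, m, 0⟩ := by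
  induction m with
  | zero => rfl
  | succ n ih =>
    rw [pow_succ, ih]
    ext <;> simp

/-- No commutative subgroup of the Heisenberg group has finite index. -/
theorem no_comm (H : Subgroup Heis) (hf : H.FiniteIndex)
    (hc : ∀ g ∈ H, ∀ h ∈ H, g * h = h * g) : False := by
  obtain ⟨m, hm0, hm⟩ : ∃ m : ℕ, m ≠ 0 ∧ (⟨1, 0, 0⟩ : Heis) ^ m ∈ H := by
    obtain ⟨m, h1, -, h2⟩ := H.exists_pow_mem_of_index_ne_zero hf.index_ne_zero ⟨1, 0, 0⟩
    exact ⟨m, by omega, h2⟩
  obtain ⟨n, hn0, hn⟩ : ∃ m : ℕ, m ≠ 0 ∧ (⟨0, 1, 0⟩ : Heis) ^ m ∈ H := by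
    obtain ⟨m, h1, -, h2⟩ := H.exists_pow_mem_of_index_ne_zero hf.index_ne_zero ⟨0, 1, 0⟩
    exact ⟨m, by omega, h2⟩
  have h := hc _ hm _ hn
  rw [pow_A, pow_B] at h
  have h2 := congrArg Heis.c h
  simp at h2
  omega

/-- The action of the Heisenberg group on `ℂ³`. -/
instance : MulAction Heis (Fin 3 → ℂ) where
  smul g v := ![v 0 + g.a, v 1 + g.b, v 2 + g.c + g.a * v 1]
  one_smul v := by
    funext i
    fin_cases i <;> simp [HSMul.hSMul]
  mul_smul g h v := by
    funext i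
    fin_cases i <;> simp [HSMul.hSMul] <;> ring

theorem smul_def (g : Heis) (v : Fin 3 → ℂ) :
    g • v = ![v 0 + g.a, v 1 + g.b, v 2 + g.c + g.a * v 1] := rfl

end Heis

/-- A group has a commutative subgroup of finite index. -/
def VirtuallyAbelian (G : Type) [Group G] : Prop :=
  ∃ H : Subgroup G, H.FiniteIndex ∧ ∀ g ∈ H, ∀ h ∈ H, g * h = h * g

theorem not_virtuallyAbelian_of_equiv {G : Type} [Group G] (e : G ≃* Heis) :
    ¬ VirtuallyAbelian G := by
  rintro ⟨H, hf, hc⟩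
  refine Heis.no_comm (H.map e.toMonoidHom) ?_ ?_
  · have : (H.map e.toMonoidHom).index = H.index :=
      Subgroup.index_map_equiv H e
    exact ⟨by rw [this]; exact hf.index_ne_zero⟩
  · rintro _ ⟨g, hg, rfl⟩ _ ⟨h, hh, rfl⟩
    rw [← map_mul, ← map_mul, hc g hg h hh]

end Pool.Agent.Y193.HQ
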