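import Pool.Agent.Y193.HQ.Theta
import Pool.Agent.Y193.HQ.Heis

/-!
Eight Heisenberg-invariant entire functions on `ℂ³` separating the orbits.
-/

open Complex

noncomputable section

namespace Pool.Agent.Y193.HQ

/-- `ee t = exp (2 π i t)`. -/
def ee (t : ℂ) : ℂ := cexp (2 * Real.pi * I * t)

theorem ee_ne (t : ℂ) : ee t ≠ 0 := Complex.exp_ne_zero _

theorem ee_add (t s : ℂ) : ee (t + s) = ee t * ee s := by
  unfold ee; rw [← Complex.exp_add]; congr 1; ring

theorem ee_int (n : ℤ) : ee n = 1 := by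
  unfold ee
  rw [Complex.exp_eq_one_iff]
  exact ⟨n, by ring⟩

theorem ee_zero : ee 0 = 1 := by simpa using ee_int 0

theorem ee_neg_mul (t : ℂ) : ee (-t) * ee t = 1 := by
  rw [← ee_add]; simp [ee_zero]

theorem ee_mul_neg (t : ℂ) : ee t * ee (-t) = 1 := by
  rw [← ee_add]; simp [ee_zero]

theorem two_pi_I_ne : (2 * Real.pi * I : ℂ) ≠ 0 := by
  have := Real.pi_ne_zero
  simp [this]

theorem ee_eq_iff (t s : ℂ) : ee t = ee s ↔ ∃ n : ℤ, t = s + n := by
  unfold ee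
  rw [Complex.exp_eq_exp_iff_exists_int]
  constructor
  · rintro ⟨n, hn⟩
    refine ⟨n, ?_⟩
    have h : (2 * Real.pi * I : ℂ) * t = (2 * Real.pi * I) * (s + n) := by rw [hn]; ring
    exact mul_left_cancel₀ two_pi_I_ne h
  · rintro ⟨n, rfl⟩
    exact ⟨n, by ring⟩

theorem ee_differentiable : Differentiable ℂ ee := by
  unfold ee; fun_prop

/-- The two shifts of the theta function. -/
def sh : Fin 2 → ℂ := ![0, exists_shift.choose]

/-- `EE j x y = exp (- π x² + 2 π i s_j x) θ (y + i x + s_j)`. -/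
def EE (j : Fin 2) (x y : ℂ) : ℂ :=
  cexp (-Real.pi * x ^ 2 + 2 * Real.pi * I * sh j * x) * th (y + I * x + sh j)

theorem EE_differentiable {F : Type*} [NormedAddCommGroup F] [NormedSpace ℂ F]
    {S : Set F} (j : Fin 2) {f g : F → ℂ} (hf : DifferentiableOn ℂ f S)
    (hg : DifferentiableOn ℂ g S) : DifferentiableOn ℂ (fun p => EE j (f p) (g p)) S := by
  unfold EE
  apply DifferentiableOn.mul
  · fun_prop
  · exact th_differentiable.comp_differentiableOn (by fun_prop)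

theorem EE_continuousAt {F : Type*} [TopologicalSpace F]
    (j : Fin 2) {f g : F → ℂ} {p : F} (hf : ContinuousAt f p)
    (hg : ContinuousAt g p) : ContinuousAt (fun p => EE j (f p) (g p)) p := by
  unfold EE
  apply ContinuousAt.mul
  · fun_prop
  · exact (th_differentiable.continuous.continuousAt).comp (by fun_prop)

theorem EE_add_y (j : Fin 2) (x y : ℂ) (b : ℤ) : EE j x (y + b) = EE j x y := by
  unfold EE
  rw [← th_add_int (y + I * x + sh j) b]
  congr 2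
  ring

theorem EE_add_x (j : Fin 2) (x y : ℂ) (a : ℤ) :
    EE j (x + a) y = ee (-(a * y)) * EE j x y := by
  unfold EE ee
  have e : y + I * (x + a) + sh j = (y + I * x + sh j) + a * I := by ring
  rw [e, th_add_int_I, ← mul_assoc, ← mul_assoc, ← Complex.exp_add, ← Complex.exp_add]
  congr 2
  have : I * I = -1 := I_mul_I
  linear_combination (-2 * (Real.pi : ℂ) * a * x) * this

theorem EE_ne (x y : ℂ) : ∃ j, EE j x y ≠ 0 := by
  by_contra h
  push Not at h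
  have h0 := h 0
  have h1 := h 1
  unfold EE at h0 h1
  rw [mul_eq_zero, or_iff_right (Complex.exp_ne_zero _)] at h0 h1
  refine exists_shift.choose_spec (y + I * x) ?_ ?_
  · simpa [sh] using h0
  · simpa [sh] using h1

/-- The map `ℂ³ → ℂ⁸`. -/
def Psi (v : Fin 3 → ℂ) : Fin 8 → ℂ :=
  ![ee (v 0), ee (-v 0), ee (v 1), ee (-v 1),
    EE 0 (v 0) (v 1) * ee (v 2), EE 1 (v 0) (v 1) * ee (v 2),
    EE 0 (v 0) (-v 1) * ee (-v 2), EE 1 (v 0) (-v 1) * ee (-v 2)]

/-- Index of the coordinate `F_j`. -/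
def iF (j : Fin 2) : Fin 8 := ![4, 5] j
/-- Index of the coordinate `G_j`. -/
def iG (j : Fin 2) : Fin 8 := ![6, 7] j

theorem Psi_0 (v : Fin 3 → ℂ) : Psi v 0 = ee (v 0) := rfl
theorem Psi_1 (v : Fin 3 → ℂ) : Psi v 1 = ee (-v 0) := rfl
theorem Psi_2 (v : Fin 3 → ℂ) : Psi v 2 = ee (v 1) := rfl
theorem Psi_3 (v : Fin 3 → ℂ) : Psi v 3 = ee (-v 1) := rfl
theorem Psi_F (j : Fin 2) (v : Fin 3 → ℂ) : Psi v (iF j) = EE j (v 0) (v 1) * ee (v 2) := by
  fin_cases j <;> rfl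
theorem Psi_G (j : Fin 2) (v : Fin 3 → ℂ) : Psi v (iG j) = EE j (v 0) (-v 1) * ee (-v 2) := by
  fin_cases j <;> rfl

theorem ext8 {P Q : Fin 8 → ℂ} (h0 : P 0 = Q 0) (h1 : P 1 = Q 1) (h2 : P 2 = Q 2)
    (h3 : P 3 = Q 3) (hF : ∀ j, P (iF j) = Q (iF j)) (hG : ∀ j, P (iG j) = Q (iG j)) :
    P = Q := by
  funext i
  fin_cases i
  · exact h0
  · exact h1
  · exact h2
  · exact h3
  · exact hF 0
  · exact hF 1
  · exact hG 0
  · exact hG 1

theorem Psi_differentiable : Differentiable ℂ Psi := by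
  rw [differentiable_pi]
  have hv : ∀ i : Fin 3, Differentiable ℂ (fun v : Fin 3 → ℂ => v i) := fun i => by fun_prop
  have hE : ∀ (j : Fin 2) (f g : (Fin 3 → ℂ) → ℂ), Differentiable ℂ f → Differentiable ℂ g →
      Differentiable ℂ (fun v => EE j (f v) (g v)) := by
    intro j f g hf hg
    rw [← differentiableOn_univ]
    exact EE_differentiable j hf.differentiableOn hg.differentiableOn
  intro i
  fin_cases i
  · exact ee_differentiable.comp (hv 0)
  · exact ee_differentiable.comp (hv 0).neg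
  · exact ee_differentiable.comp (hv 1)
  · exact ee_differentiable.comp (hv 1).neg
  · exact (hE 0 _ _ (hv 0) (hv 1)).mul (ee_differentiable.comp (hv 2))
  · exact (hE 1 _ _ (hv 0) (hv 1)).mul (ee_differentiable.comp (hv 2))
  · exact (hE 0 _ _ (hv 0) (hv 1).neg).mul (ee_differentiable.comp (hv 2).neg)
  · exact (hE 1 _ _ (hv 0) (hv 1).neg).mul (ee_differentiable.comp (hv 2).neg)

theorem smul_0 (g : Heis) (v : Fin 3 → ℂ) : (g • v) 0 = v 0 + g.a := rfl
theorem smul_1 (g : Heis) (v : Fin 3 → ℂ) : (g • v) 1 = v 1 + g.b := rfl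
theorem smul_2 (g : Heis) (v : Fin 3 → ℂ) : (g • v) 2 = v 2 + g.c + g.a * v 1 := rfl

theorem Psi_smul (g : Heis) (v : Fin 3 → ℂ) : Psi (g • v) = Psi v := by
  apply ext8
  · rw [Psi_0, Psi_0, smul_0, ee_add, ee_int, mul_one]
  · rw [Psi_1, Psi_1, smul_0, neg_add, ee_add]
    have := ee_int (-g.a)
    push_cast at this
    rw [this, mul_one]
  · rw [Psi_2, Psi_2, smul_1, ee_add, ee_int, mul_one]
  · rw [Psi_3, Psi_3, smul_1, neg_add, ee_add]
    have := ee_int (-g.b)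
    push_cast at this
    rw [this, mul_one]
  · intro j
    rw [Psi_F, Psi_F, smul_0, smul_1, smul_2, EE_add_x, EE_add_y]
    have h1 : ee (-(g.a * (v 1 + g.b))) * ee (v 2 + g.c + g.a * v 1) = ee (v 2) := by
      rw [← ee_add, ee_eq_iff]
      exact ⟨g.c - g.a * g.b, by push_cast; ring⟩
    rw [← h1]
    ring
  · intro j
    rw [Psi_G, Psi_G, smul_0, smul_1, smul_2, EE_add_x]
    have h0 : EE j (v 0) (-(v 1 + g.b)) = EE j (v 0) (-v 1) := by
      have := EE_add_y j (v 0) (-v 1) (-g.b)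
      rw [← this]
      push_cast
      congr 1
      ring
    rw [h0]
    have h1 : ee (-(g.a * -(v 1 + g.b))) * ee (-(v 2 + g.c + g.a * v 1)) = ee (-v 2) := by
      rw [← ee_add, ee_eq_iff]
      exact ⟨-g.c + g.a * g.b, by push_cast; ring⟩
    rw [← h1]
    ring

theorem exists_adjust (v w : Fin 3 → ℂ) (h0 : ee (v 0) = ee (w 0)) (h1 : ee (v 1) = ee (w 1)) :
    ∃ g : Heis, (g • w) 0 = v 0 ∧ (g • w) 1 = v 1 := by
  obtain ⟨a, ha⟩ := (ee_eq_iff _ _).1 h0
  obtain ⟨b, hb⟩ := (ee_eq_iff _ _).1 h1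
  exact ⟨⟨a, b, 0⟩, by rw [smul_0, ha], by rw [smul_1, hb]⟩

theorem exists_smul (v w : Fin 3 → ℂ) (h0 : ee (v 0) = ee (w 0)) (h1 : ee (v 1) = ee (w 1))
    (j : Fin 2) (hE : EE j (v 0) (v 1) ≠ 0) (hF : Psi v (iF j) = Psi w (iF j)) :
    ∃ g : Heis, g • w = v := by
  obtain ⟨g, hg0, hg1⟩ := exists_adjust v w h0 h1
  rw [← Psi_smul g w, Psi_F, Psi_F, hg0, hg1] at hF
  obtain ⟨c, hc⟩ := (ee_eq_iff _ _).1 (mul_left_cancel₀ hE hF)
  refine ⟨⟨0, 0, c⟩ * g, ?_⟩
  rw [mul_smul]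
  funext i
  fin_cases i
  · change ((⟨0, 0, c⟩ : Heis) • g • w) 0 = v 0
    rw [smul_0, hg0]; simp
  · change ((⟨0, 0, c⟩ : Heis) • g • w) 1 = v 1
    rw [smul_1, hg1]; simp
  · change ((⟨0, 0, c⟩ : Heis) • g • w) 2 = v 2
    rw [smul_2, hc]; simp

theorem Psi_eq_iff (v w : Fin 3 → ℂ) : Psi v = Psi w ↔ v ∈ MulAction.orbit Heis w := by
  constructor
  · intro h
    obtain ⟨j, hj⟩ := EE_ne (v 0) (v 1)
    obtain ⟨g, hg⟩ := exists_smul v w (congrFun h 0) (congrFun h 2) j hj (congrFun h _)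
    exact ⟨g, hg⟩
  · rintro ⟨g, rfl⟩
    exact Psi_smul g w

end Pool.Agent.Y193.HQ
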