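import Mathlib

/-!
The theta function with tau = i, its quasi-periodicity, and a shift such that
the shifted zero set is disjoint from the zero set.
-/

open Complex

noncomputable section

namespace Pool.Agent.Y193.HQ

/-- The theta function `∑ exp(π i n² i + 2 π i n u)`. -/
def th (u : ℂ) : ℂ := jacobiTheta₂ u I

theorem th_differentiable : Differentiable ℂ th := fun u =>
  differentiableAt_jacobiTheta₂_fst u (by simp)

theorem th_add_one (u : ℂ) : th (u + 1) = th u := jacobiTheta₂_add_left u I

theorem th_add_nat (u : ℂ) (n : ℕ) : th (u + n) = th u := by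
  induction n with
  | zero => simp
  | succ n ih =>
    rw [Nat.cast_succ, ← add_assoc, th_add_one, ih]

theorem th_add_int (u : ℂ) (n : ℤ) : th (u + n) = th u := by
  obtain ⟨k, rfl | rfl⟩ := n.eq_nat_or_neg
  · exact_mod_cast th_add_nat u k
  · have := th_add_nat (u + ((-(k : ℤ) : ℤ) : ℂ)) k
    rw [← this]
    congr 1
    push_cast
    ring

theorem th_add_I (u : ℂ) :
    th (u + I) = cexp (Real.pi - 2 * Real.pi * I * u) * th u := by
  unfold th
  rw [jacobiTheta₂_add_left' u I]
  congr 2
  have : I * I = -1 := I_mul_I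
  linear_combination (-(Real.pi : ℂ)) * this

theorem th_add_nat_I (u : ℂ) (n : ℕ) :
    th (u + n * I) = cexp (Real.pi * n ^ 2 - 2 * Real.pi * I * n * u) * th u := by
  induction n with
  | zero => simp
  | succ n ih =>
    have e : u + ((n + 1 : ℕ) : ℂ) * I = (u + n * I) + I := by push_cast; ring
    rw [e, th_add_I, ih, ← mul_assoc, ← Complex.exp_add]
    congr 2
    push_cast
    have : I * I = -1 := I_mul_I
    linear_combination (-2 * (Real.pi : ℂ) * n) * this

theorem th_add_int_I (u : ℂ) (n : ℤ) :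
    th (u + n * I) = cexp (Real.pi * n ^ 2 - 2 * Real.pi * I * n * u) * th u := by
  obtain ⟨k, rfl | rfl⟩ := n.eq_nat_or_neg
  · exact_mod_cast th_add_nat_I u k
  · have h := th_add_nat_I (u + ((-(k : ℤ) : ℤ) : ℂ) * I) k
    have e : u + ((-(k : ℤ) : ℤ) : ℂ) * I + (k : ℂ) * I = u := by push_cast; ring
    rw [e] at h
    rw [h, ← mul_assoc, ← Complex.exp_add]
    have e2 : (Real.pi : ℂ) * ((-(k : ℤ) : ℤ) : ℂ) ^ 2
        - 2 * Real.pi * I * ((-(k : ℤ) : ℤ) : ℂ) * u
        + (Real.pi * (k : ℂ) ^ 2 - 2 * Real.pi * I * k * (u + ((-(k : ℤ) : ℤ) : ℂ) * I)) = 0 := by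
      push_cast
      have : I * I = -1 := I_mul_I
      linear_combination (2 * (Real.pi : ℂ) * k ^ 2) * this
    rw [e2]
    simp

theorem th_zero_ne : th 0 ≠ 0 := by
  unfold th
  rw [← jacobiTheta_eq_jacobiTheta₂]
  intro h
  have h1 := norm_jacobiTheta_sub_one_le (τ := I) (by simp)
  rw [h] at h1
  simp only [zero_sub, norm_neg, norm_one, I_im, mul_one] at h1
  have h2 : Real.exp (-Real.pi) < 1 / 4 := by
    have h3 : Real.exp (-Real.pi) ≤ Real.exp (-2) := by
      apply Real.exp_le_exp.mpr
      have := Real.pi_gt_three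
      linarith
    have h4 : Real.exp (-2) = (Real.exp 1)⁻¹ * (Real.exp 1)⁻¹ := by
      rw [← Real.exp_neg, ← Real.exp_add]
      norm_num
    have h5 := Real.exp_one_gt_d9
    have h6 : (Real.exp 1)⁻¹ < 1 / 2 := by
      rw [inv_lt_comm₀ (Real.exp_pos 1) (by norm_num)]
      norm_num
      linarith
    have h7 : 0 < (Real.exp 1)⁻¹ := inv_pos.mpr (Real.exp_pos 1)
    nlinarith
  have h8 := Real.exp_pos (-Real.pi)
  have h9 : 2 / (1 - Real.exp (-Real.pi)) * Real.exp (-Real.pi) < 1 := by
    rw [div_mul_eq_mul_div, div_lt_one (by linarith)]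
    linarith
  linarith

theorem countable_zeros : (th ⁻¹' {0}).Countable := by
  have hA : AnalyticOnNhd ℂ th Set.univ := fun z _ =>
    th_differentiable.analyticAt z
  have hiso : ∀ z, ∀ᶠ w in nhdsWithin z {z}ᶜ, th w ≠ 0 := by
    intro z
    rcases (th_differentiable.analyticAt z).eventually_eq_zero_or_eventually_ne_zero with h | h
    · exfalso
      have := hA.eqOn_zero_of_preconnected_of_eventuallyEq_zero isPreconnected_univ
        (Set.mem_univ z) h
      exact th_zero_ne (this (Set.mem_univ 0))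
    · exact h
  have hd : DiscreteTopology (th ⁻¹' {0}) := by
    rw [discreteTopology_subtype_iff]
    intro x hx
    rw [← disjoint_iff]
    rw [Filter.disjoint_principal_right]
    filter_upwards [hiso x] with w hw
    simpa using hw
  have : Countable (th ⁻¹' {0} : Set ℂ) := by
    have := hd
    exact countable_of_Lindelof_of_discrete
  exact Set.countable_coe_iff.mp this

theorem exists_shift : ∃ s : ℂ, ∀ u : ℂ, th u = 0 → th (u + s) = 0 → False := by
  have hc : (Set.image2 (fun a b : ℂ => b - a) (th ⁻¹' {0}) (th ⁻¹' {0})).Countable :=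
    countable_zeros.image2 countable_zeros _
  obtain ⟨s, hs⟩ : ∃ s, s ∉ Set.image2 (fun a b : ℂ => b - a) (th ⁻¹' {0}) (th ⁻¹' {0}) := by
    by_contra h
    push Not at h
    have : (Set.univ : Set ℂ).Countable := hc.mono (fun x _ => h x)
    exact not_countable_complex this
  refine ⟨s, fun u h1 h2 => hs ⟨u, h1, u + s, h2, by ring⟩⟩

end Pool.Agent.Y193.HQ
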